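import Pool.Agent.R858.SS.Arr

/-!
# MP_8050b7_ag: a supersolvable arrangement whose third symbolic power is not in the square

The containment `J(A)^(2r-1) ⊆ J(A)^r` fails for `r = 2` for the supersolvable arrangement `A` of
the twelve planes in `ℂ³`

`z, x - z, x + z, y - z, y + z` (product `C`) and
`x, y, x - y, x + y` and `y - 2x, y + 2x, y - 3x` (product of the last three: `E`).

The line `x = y = 0` is a modular flat. Put `m₁ = yz(y² - z²)`, `m₂ = xz(x² - z²)`,
`m₃ = xy(x² - y²)` and `F = C E F'` with
`F' = E ((x² - y²)² + z² (x² + y² - 2 z²)) + 3 z (12 x + y) C`. Then `F` is in `J(A)^(3)`. Every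
element of `J(A)` is in `(C) + E (m₁, m₂, m₃)`, and `F` is not in the square of this ideal: in
`F = C² a + C E b + E² g` the form `g` of degree nine is divisible by `C`, and comparing values of
`g / C` at `(1:0:0), (0:1:0)` and the four points `(±1:±1:1)` gives a contradiction.
-/

namespace Pool.Agent.Results.MP_8050b7_ag.TwelvePlanes

open R858SS

theorem result : ∃ A : Finset (Submodule ℂ (Fin 3 → ℂ)),
    IsArrangement A ∧ A.card = 12 ∧ IsSupersolvable A ∧
      ¬ symbolicPower A (2 * 2 - 1) ≤ J A ^ 2 :=
  ⟨A12, isArr, card_A12, supersolvable_A12, not_le⟩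

end Pool.Agent.Results.MP_8050b7_ag.TwelvePlanes
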